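import Mathlib
import Pool.Agent.Lib_MP_fbca0c_an.Geo

set_option autoImplicit false

/-!
Negative answer to Q2 of MP_fbca0c_an: for all `0 < p < 1` and `1 < q < ∞` there is a continuous
linear functional on `H_p` (of one fixed filtered probability space, a two step filtration of `ℕ`
with the geometric distribution) which is not given by any `g` in the Lipschitz class `Λ_{p,q}`.
-/

namespace Pool.Agent.Results.MP_fbca0c_an.DualDiffers

open MeasureTheory Pool.Agent.LibFbca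
open scoped ENNReal

theorem result (p q : ℝ) (hp : 0 < p) (hp1 : p < 1) (hq : 1 < q) :
    IsFilteredProbSpace geoMeas geoFil ∧
      ∃ L : Lp ℂ ∞ geoMeas →ₗ[ℂ] ℂ,
        (∃ C : ℝ≥0∞, C ≠ ∞ ∧ ∀ f : Lp ℂ ∞ geoMeas, ‖L f‖ₑ ≤ C * hpNorm geoMeas geoFil p f) ∧
        ∀ g : ℕ → ℂ, Integrable g geoMeas →
          (∀ f : Lp ℂ ∞ geoMeas, L f = ∫ x, f x * g x ∂geoMeas) →
          lipNorm geoMeas geoFil p q g = ∞ ∧ lipNormLoc geoMeas geoFil p q g = ∞ := by
  refine ⟨geo_space, evalZero, ⟨2 * (2 : ℝ≥0∞) ^ (1 / p), ?_, eval_bound p hp⟩, ?_⟩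
  · exact ENNReal.mul_ne_top (by norm_num)
      (ENNReal.rpow_ne_top_of_nonneg (by positivity) (by norm_num))
  · intro g hg hL
    have h := loc_top p q hp hp1 g hg (rep_g g hL)
    exact ⟨top_le_iff.mp (h ▸ loc_le p q g), h⟩

end Pool.Agent.Results.MP_fbca0c_an.DualDiffers
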