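import Mathlib
import Pool.Agent.Lib_MP_fbca0c_an.Upper

set_option autoImplicit false

/-!
Negative answer to Q1 of MP_fbca0c_an: for all `0 < p < 1` and `1 < q < ∞` the inequality
`‖f‖_{H_p} ≤ C ‖f‖_atb` fails (for every `C`) for the dyadic filtration of `[0,1)`.
-/

namespace Pool.Agent.Results.MP_fbca0c_an.NormsDiffer

open MeasureTheory Pool.Agent.LibFbca
open scoped ENNReal

theorem result (p q r : ℝ) (hp : 0 < p) (hp1 : p < 1) (hq : 1 < q) (hr : 0 < r) :
    IsFilteredProbSpace leb01 dyadicFil ∧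
      ∀ C : ℝ≥0∞, C ≠ ∞ → ∃ f : ℝ → ℂ, MemLp f ∞ leb01 ∧
        C * atbNorm leb01 dyadicFil p q r f < hpNorm leb01 dyadicFil p f := by
  refine ⟨dyadic_space, fun C hC => ?_⟩
  obtain ⟨n, hn, h⟩ := growth p r hp hp1 C.toReal
  refine ⟨tf n, tf_memLp n, ?_⟩
  calc C * atbNorm leb01 dyadicFil p q r (tf n)
      ≤ ENNReal.ofReal C.toReal * ENNReal.ofReal (2 ^ (1 / r) * cf n p) := by
        rw [ENNReal.ofReal_toReal hC]
        gcongr
        exact tf_atb n p q r hp hq hr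
    _ = ENNReal.ofReal (C.toReal * (2 ^ (1 / r) * cf n p)) := by
        rw [ENNReal.ofReal_mul ENNReal.toReal_nonneg]
    _ < ENNReal.ofReal (2 * (1 / 2) ^ n) := by
        rw [ENNReal.ofReal_lt_ofReal_iff (by positivity)]
        exact h
    _ ≤ _ := hp_lower n hn p hp

end Pool.Agent.Results.MP_fbca0c_an.NormsDiffer
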